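import Pool.Agent.Y303.SK.Stm

/-!
# SK-PK: the two packets (helper448)
-/

open Set Filter Topology MeasureTheory Metric

set_option autoImplicit false

namespace Pool.Agent.Y448.SK

open Pool.Agent.Y5 (E3)
open Pool.Agent.Y303.SK

/-! ### Stream fields -/

/-- `∂_j f e_i - ∂_i f e_j` -/
noncomputable def W (i j : Fin 3) (f : E3 → ℝ) (x : E3) : E3 :=
  (fderiv ℝ f x (cv j)) • cv i - (fderiv ℝ f x (cv i)) • cv j

theorem pd_smooth {f : E3 → ℝ} (hf : ContDiff ℝ (⊤ : ℕ∞) f) (v : E3) :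
    ContDiff ℝ (⊤ : ℕ∞) (fun x => fderiv ℝ f x v) :=
  (hf.fderiv_right (m := (⊤ : ℕ∞)) (by norm_cast)).clm_apply contDiff_const

theorem W_smooth (i j : Fin 3) {f : E3 → ℝ} (hf : ContDiff ℝ (⊤ : ℕ∞) f) :
    ContDiff ℝ (⊤ : ℕ∞) (W i j f) :=
  ((pd_smooth hf _).smul contDiff_const).sub ((pd_smooth hf _).smul contDiff_const)

theorem W_tsupport (i j : Fin 3) (f : E3 → ℝ) : tsupport (W i j f) ⊆ tsupport f := by
  refine closure_minimal (fun x hx => ?_) isClosed_closure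
  by_contra h
  have h1 : fderiv ℝ f x = 0 := fderiv_of_notMem_tsupport (𝕜 := ℝ) h
  apply hx
  unfold W
  rw [h1]
  simp

theorem cv_apply (i k : Fin 3) : (cv i) k = if k = i then (1 : ℝ) else 0 := by
  unfold cv
  rw [EuclideanSpace.single_apply]

theorem W_dvg (i j : Fin 3) {f : E3 → ℝ} (hf : ContDiff ℝ (⊤ : ℕ∞) f) (x : E3) : dvg (W i j f) x = 0 := by
  have hD : HasFDerivAt (fderiv ℝ f) (fderiv ℝ (fderiv ℝ f) x) x := by
    have h1 : ContDiff ℝ (⊤ : ℕ∞) (fderiv ℝ f) := hf.fderiv_right (m := (⊤ : ℕ∞)) (by norm_cast)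
    exact (h1.differentiable (by simp) x).hasFDerivAt
  have h2 : ∀ v : E3, HasFDerivAt (fun x => fderiv ℝ f x v)
      ((ContinuousLinearMap.apply ℝ ℝ v).comp (fderiv ℝ (fderiv ℝ f) x)) x := fun v =>
    (ContinuousLinearMap.apply ℝ ℝ v).hasFDerivAt.comp x hD
  have h3 := ((h2 (cv j)).smul_const (cv i)).sub ((h2 (cv i)).smul_const (cv j))
  have h4 : fderiv ℝ (W i j f) x = _ := h3.fderiv
  have hs : fderiv ℝ (fderiv ℝ f) x (cv i) (cv j) = fderiv ℝ (fderiv ℝ f) x (cv j) (cv i) :=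
    (hf.contDiffAt.isSymmSndFDerivAt (by
      rw [minSmoothness_of_isRCLikeNormedField]
      exact WithTop.coe_le_coe.mpr (le_top : (2 : ℕ∞) ≤ ⊤))) (cv i) (cv j)
  unfold dvg
  rw [h4]
  have h5 : ∀ k : Fin 3, ((((ContinuousLinearMap.apply ℝ ℝ (cv j)).comp
      (fderiv ℝ (fderiv ℝ f) x)).smulRight (cv i) - ((ContinuousLinearMap.apply ℝ ℝ (cv i)).comp
      (fderiv ℝ (fderiv ℝ f) x)).smulRight (cv j)) (cv k)) k =
      (if k = i then fderiv ℝ (fderiv ℝ f) x (cv k) (cv j) else 0) -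
        (if k = j then fderiv ℝ (fderiv ℝ f) x (cv k) (cv i) else 0) := by
    intro k
    have e1 : ((((ContinuousLinearMap.apply ℝ ℝ (cv j)).comp
      (fderiv ℝ (fderiv ℝ f) x)).smulRight (cv i) - ((ContinuousLinearMap.apply ℝ ℝ (cv i)).comp
      (fderiv ℝ (fderiv ℝ f) x)).smulRight (cv j)) (cv k)) k =
      fderiv ℝ (fderiv ℝ f) x (cv k) (cv j) * (cv i) k -
        fderiv ℝ (fderiv ℝ f) x (cv k) (cv i) * (cv j) k := rfl
    rw [e1, cv_apply, cv_apply]
    simp only [mul_ite, mul_one, mul_zero]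
  rw [Finset.sum_congr rfl fun k _ => h5 k, Finset.sum_sub_distrib, Finset.sum_ite_eq' Finset.univ i,
    Finset.sum_ite_eq' Finset.univ j]
  simp only [Finset.mem_univ, if_true]
  rw [hs, sub_self]

theorem W_cs (i j : Fin 3) {f : E3 → ℝ} (hf : ContDiff ℝ (⊤ : ℕ∞) f) (hc : HasCompactSupport f)
    {Ω : Set E3} (hs : tsupport f ⊆ Ω) : CS Ω (W i j f) where
  smooth := W_smooth i j hf
  cpt := hc.of_isClosed_subset isClosed_closure (W_tsupport i j f)
  supp := (W_tsupport i j f).trans hs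
  dv := W_dvg i j hf

/-! ### Operations -/

theorem cs_mono {Ω Ω' : Set E3} {v : E3 → E3} (h : CS Ω v) (hs : Ω ⊆ Ω') : CS Ω' v :=
  ⟨h.smooth, h.cpt, h.supp.trans hs, h.dv⟩

theorem cs_add {Ω : Set E3} {v w : E3 → E3} (hv : CS Ω v) (hw : CS Ω w) : CS Ω (fun x => v x + w x) := by
  have hsub : tsupport (fun x => v x + w x) ⊆ tsupport v ∪ tsupport w := by
    refine closure_minimal (fun x hx => ?_) (isClosed_closure.union isClosed_closure)
    by_contra h
    rw [Set.mem_union, not_or] at h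
    apply hx
    simp only
    rw [image_eq_zero_of_notMem_tsupport h.1, image_eq_zero_of_notMem_tsupport h.2, add_zero]
  refine ⟨hv.smooth.add hw.smooth, ?_, hsub.trans (union_subset hv.supp hw.supp), fun x => ?_⟩
  · exact (hv.cpt.isCompact.union hw.cpt.isCompact).of_isClosed_subset isClosed_closure hsub
  · have h1 : fderiv ℝ (fun x => v x + w x) x = fderiv ℝ v x + fderiv ℝ w x :=
      ((hv.smooth.differentiable (by simp) x).hasFDerivAt.add
        (hw.smooth.differentiable (by simp) x).hasFDerivAt).fderiv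
    have h2 := hv.dv x
    have h3 := hw.dv x
    unfold dvg at h2 h3 ⊢
    rw [h1]
    simp only [ContinuousLinearMap.add_apply, PiLp.add_apply, Finset.sum_add_distrib]
    rw [h2, h3, add_zero]

theorem cs_smul {Ω : Set E3} {v : E3 → E3} (hv : CS Ω v) (c : ℝ) : CS Ω (fun x => c • v x) := by
  have hsub : tsupport (fun x => c • v x) ⊆ tsupport v := by
    refine closure_minimal (fun x hx => ?_) isClosed_closure
    by_contra h
    apply hx
    simp only
    rw [image_eq_zero_of_notMem_tsupport h, smul_zero]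
  refine ⟨hv.smooth.const_smul c, ?_, hsub.trans hv.supp, fun x => ?_⟩
  · exact hv.cpt.of_isClosed_subset isClosed_closure hsub
  · have h1 : fderiv ℝ (fun x => c • v x) x = c • fderiv ℝ v x :=
      ((hv.smooth.differentiable (by simp) x).hasFDerivAt.const_smul c).fderiv
    have h2 := hv.dv x
    unfold dvg at h2 ⊢
    rw [h1]
    simp only [ContinuousLinearMap.smul_apply, PiLp.smul_apply, smul_eq_mul]
    rw [← Finset.mul_sum, h2, mul_zero]

/-! ### The forms -/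

theorem Sm_0 (x : E3) : (Sm x) 0 = x 0 := rfl

theorem Sm_1 (x : E3) : (Sm x) 1 = x 1 := rfl

theorem Sm_2 (x : E3) : (Sm x) 2 = -2 * x 2 := rfl

theorem inner3 (x y : E3) : inner ℝ x y = x 0 * y 0 + x 1 * y 1 + x 2 * y 2 := by
  rw [PiLp.inner_apply, Fin.sum_univ_three]
  simp only [real_inner_eq_re_inner, RCLike.inner_apply, conj_trivial, RCLike.re_to_real]
  ring

theorem Sm_inner (x : E3) : inner ℝ (Sm x) x = x 0 ^ 2 + x 1 ^ 2 - 2 * x 2 ^ 2 := by
  rw [inner3, Sm_0, Sm_1, Sm_2]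
  ring

theorem self_inner (x : E3) : inner ℝ x x = x 0 ^ 2 + x 1 ^ 2 + x 2 ^ 2 := by
  rw [inner3]
  ring

/-- the quadratic form -/
noncomputable def TT (v : E3 → E3) : ℝ := ∫ x, inner ℝ (Sm (v x)) (v x)

theorem int_self {Ω : Set E3} {v : E3 → E3} (h : CS Ω v) : Integrable (fun x => inner ℝ (v x) (v x)) := by
  refine (h.smooth.continuous.inner h.smooth.continuous).integrable_of_hasCompactSupport ?_
  refine h.cpt.mono fun x hx => ?_
  rw [Function.mem_support] at hx ⊢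
  intro h0
  apply hx
  rw [h0, inner_zero_left]

theorem int_Sm {Ω : Set E3} {v : E3 → E3} (h : CS Ω v) : Integrable (fun x => inner ℝ (Sm (v x)) (v x)) := by
  refine ((Sm.continuous.comp h.smooth.continuous).inner h.smooth.continuous).integrable_of_hasCompactSupport ?_
  refine h.cpt.mono fun x hx => ?_
  rw [Function.mem_support] at hx ⊢
  intro h0
  apply hx
  rw [h0, inner_zero_right]

theorem TT_smul (v : E3 → E3) (c : ℝ) : TT (fun x => c • v x) = c ^ 2 * TT v := by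
  unfold TT
  rw [← integral_const_mul]
  congr 1
  funext x
  rw [map_smul, inner_smul_left, inner_smul_right]
  simp only [conj_trivial]
  ring

theorem ipr_smul (v : E3 → E3) (c : ℝ) : ipr (fun x => c • v x) (fun x => c • v x) = c ^ 2 * ipr v v := by
  unfold ipr
  rw [← integral_const_mul]
  congr 1
  funext x
  rw [inner_smul_left, inner_smul_right]
  simp only [conj_trivial]
  ring

theorem TT_lower {Ω : Set E3} {v : E3 → E3} (h : CS Ω v) : -(2 * ipr v v) ≤ TT v := by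
  unfold ipr TT
  rw [← integral_const_mul, ← integral_neg]
  refine integral_mono ((int_self h).const_mul 2).neg (int_Sm h) fun x => ?_
  simp only
  rw [Sm_inner, self_inner]
  nlinarith [sq_nonneg ((v x) 0), sq_nonneg ((v x) 1)]

/-! ### Bumps -/

/-- radial bumps -/
noncomputable def bm (p : E3) (c d : ℝ) (x : E3) : ℝ := Real.smoothTransition (c - d * ‖x - p‖ ^ 2)

theorem bm_smooth (p : E3) (c d : ℝ) : ContDiff ℝ (⊤ : ℕ∞) (bm p c d) := by
  unfold bm
  refine Real.smoothTransition.contDiff.comp ?_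
  exact contDiff_const.sub (contDiff_const.mul ((contDiff_norm_sq ℝ).comp (contDiff_id.sub contDiff_const)))

theorem bm_zero {p : E3} {c d ρ : ℝ} (hd : 0 < d) (hρ : 0 ≤ ρ) (h : c ≤ d * ρ ^ 2) {x : E3}
    (hx : ρ ≤ ‖x - p‖) : bm p c d x = 0 := by
  refine Real.smoothTransition.zero_of_nonpos ?_
  have h1 : ρ ^ 2 ≤ ‖x - p‖ ^ 2 := pow_le_pow_left₀ hρ hx 2
  nlinarith

theorem bm_tsupport {p : E3} {c d ρ : ℝ} (hd : 0 < d) (hρ : 0 ≤ ρ) (h : c ≤ d * ρ ^ 2) :
    tsupport (bm p c d) ⊆ closedBall p ρ := by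
  refine closure_minimal (fun x hx => ?_) isClosed_closedBall
  by_contra h1
  rw [mem_closedBall, dist_eq_norm] at h1
  push Not at h1
  exact hx (bm_zero hd hρ h h1.le)

theorem cpt_of {f : E3 → ℝ} {p : E3} {ρ : ℝ} (h : tsupport f ⊆ closedBall p ρ) : HasCompactSupport f :=
  (isCompact_closedBall p ρ).of_isClosed_subset isClosed_closure h

/-- some directional derivative does not vanish -/
theorem ex_pd {f : E3 → ℝ} (hf : ContDiff ℝ (⊤ : ℕ∞) f) {p : E3} {ρ : ℝ}
    (h : tsupport f ⊆ closedBall p ρ) (hp : f p ≠ 0) (i : Fin 3) : ∃ x, fderiv ℝ f x (cv i) ≠ 0 := by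
  by_contra hcon
  push Not at hcon
  have h1 : ∀ t : ℝ, HasDerivAt (fun t : ℝ => f (p + t • cv i)) 0 t := by
    intro t
    have h2 : HasDerivAt (fun t : ℝ => p + t • cv i) (cv i) t := by
      have := ((hasDerivAt_id t).smul_const (cv i)).const_add p
      simpa using this
    have h3 := ((hf.differentiable (by simp) (p + t • cv i)).hasFDerivAt).comp_hasDerivAt t h2
    rw [hcon] at h3
    exact h3
  have h4 : ∀ t : ℝ, f (p + t • cv i) = f p := by
    intro t
    have h5 := is_const_of_deriv_eq_zero (fun t => (h1 t).differentiableAt) (fun t => (h1 t).deriv) t 0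
    simpa using h5
  have h6 : f (p + (|ρ| + 1) • cv i) = 0 := by
    refine image_eq_zero_of_notMem_tsupport fun h7 => ?_
    have h8 := h h7
    rw [mem_closedBall, dist_eq_norm, add_sub_cancel_left, norm_smul, Real.norm_eq_abs,
      abs_of_nonneg (by positivity)] at h8
    have h9 : ‖cv i‖ = 1 := by simp
    rw [h9] at h8
    linarith [le_abs_self ρ]
  exact hp (by rw [← h4 (|ρ| + 1), h6])

theorem pd_sq_cpt {f : E3 → ℝ} (hc : HasCompactSupport f) (v : E3) :
    HasCompactSupport (fun x => (fderiv ℝ f x v) ^ 2) := by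
  refine (hc.fderiv (𝕜 := ℝ)).mono fun x hx => ?_
  rw [Function.mem_support] at hx ⊢
  intro h0
  apply hx
  rw [h0]
  simp

theorem pd_sq_int {f : E3 → ℝ} (hf : ContDiff ℝ (⊤ : ℕ∞) f) (hc : HasCompactSupport f) (v : E3) :
    Integrable (fun x => (fderiv ℝ f x v) ^ 2) :=
  ((pd_smooth hf v).continuous.pow 2).integrable_of_hasCompactSupport (pd_sq_cpt hc v)

theorem pd_sq_pos {f : E3 → ℝ} (hf : ContDiff ℝ (⊤ : ℕ∞) f) (hc : HasCompactSupport f) {p : E3} {ρ : ℝ}
    (h : tsupport f ⊆ closedBall p ρ) (hp : f p ≠ 0) (i : Fin 3) :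
    0 < ∫ x, (fderiv ℝ f x (cv i)) ^ 2 := by
  obtain ⟨x, hx⟩ := ex_pd hf h hp i
  exact Continuous.integral_pos_of_hasCompactSupport_nonneg_nonzero
    ((pd_smooth hf (cv i)).continuous.pow 2) (pd_sq_cpt hc _) (fun x => sq_nonneg _) (x := x)
    (pow_ne_zero 2 hx)

/-- the components of the stream fields -/
theorem W01 (f : E3 → ℝ) (x : E3) : (W 0 1 f x) 0 = fderiv ℝ f x (cv 1) ∧
    (W 0 1 f x) 1 = -fderiv ℝ f x (cv 0) ∧ (W 0 1 f x) 2 = 0 := by
  unfold W
  simp [cv_apply]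

theorem W02 (f : E3 → ℝ) (x : E3) : (W 0 2 f x) 0 = fderiv ℝ f x (cv 2) ∧
    (W 0 2 f x) 1 = 0 ∧ (W 0 2 f x) 2 = -fderiv ℝ f x (cv 0) := by
  unfold W
  simp [cv_apply]

theorem W12 (f : E3 → ℝ) (x : E3) : (W 1 2 f x) 0 = 0 ∧
    (W 1 2 f x) 1 = fderiv ℝ f x (cv 2) ∧ (W 1 2 f x) 2 = -fderiv ℝ f x (cv 1) := by
  unfold W
  simp [cv_apply]

/-! ### The linear part -/

/-- the coordinate functional -/
noncomputable def prj (i : Fin 3) : E3 →L[ℝ] ℝ := EuclideanSpace.proj i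

theorem prj_apply (i : Fin 3) (x : E3) : prj i x = x i := rfl

/-- the local quadratic potential -/
noncomputable def gq (i j : Fin 3) (x : E3) : ℝ := bm 0 (9 / 5) (64 / 5) x * (x i * x j)

theorem gq_smooth (i j : Fin 3) : ContDiff ℝ (⊤ : ℕ∞) (gq i j) :=
  (bm_smooth _ _ _).mul ((prj i).contDiff.mul (prj j).contDiff)

theorem gq_tsupport (i j : Fin 3) : tsupport (gq i j) ⊆ closedBall 0 (3 / 8) := by
  refine closure_minimal (fun x hx => ?_) isClosed_closedBall
  by_contra h1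
  rw [mem_closedBall, dist_eq_norm] at h1
  push Not at h1
  apply hx
  unfold gq
  rw [bm_zero (p := 0) (c := 9 / 5) (d := 64 / 5) (ρ := 3 / 8) (by norm_num) (by norm_num)
    (by norm_num) h1.le, zero_mul]

theorem gq_eq (i j : Fin 3) {x : E3} (hx : x ∈ ball (0 : E3) (1 / 4)) : gq i j x = x i * x j := by
  unfold gq bm
  rw [Real.smoothTransition.one_of_one_le, one_mul]
  rw [mem_ball, dist_eq_norm] at hx
  have h1 : ‖x - 0‖ ^ 2 ≤ (1 / 4) ^ 2 := pow_le_pow_left₀ (norm_nonneg _) hx.le 2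
  nlinarith

theorem gq_fderiv (i j : Fin 3) {x : E3} (hx : x ∈ ball (0 : E3) (1 / 4)) (v : E3) :
    fderiv ℝ (gq i j) x v = x i * v j + x j * v i := by
  have h1 : gq i j =ᶠ[𝓝 x] fun y => prj i y * prj j y := by
    filter_upwards [isOpen_ball.mem_nhds hx] with y hy
    exact gq_eq i j hy
  have h2 : HasFDerivAt (fun y => prj i y * prj j y) (prj i x • prj j + prj j x • prj i) x :=
    (prj i).hasFDerivAt.mul (prj j).hasFDerivAt
  rw [h1.fderiv_eq, h2.fderiv]
  rfl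

/-- the field which is equal to `Sm x` near the origin -/
noncomputable def u0 (x : E3) : E3 := W 0 2 (gq 0 2) x + W 1 2 (gq 1 2) x

theorem u0_cs : CS (closedBall 0 (3 / 8)) u0 :=
  cs_add (W_cs 0 2 (gq_smooth 0 2) (cpt_of (gq_tsupport 0 2)) (gq_tsupport 0 2))
    (W_cs 1 2 (gq_smooth 1 2) (cpt_of (gq_tsupport 1 2)) (gq_tsupport 1 2))

theorem u0_eq {x : E3} (hx : x ∈ ball (0 : E3) (1 / 4)) : u0 x = Sm x := by
  obtain ⟨a0, a1, a2⟩ := W02 (gq 0 2) x
  obtain ⟨b0, b1, b2⟩ := W12 (gq 1 2) x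
  ext i
  fin_cases i
  · show (W 0 2 (gq 0 2) x) 0 + (W 1 2 (gq 1 2) x) 0 = (Sm x) 0
    rw [a0, b0, Sm_0, gq_fderiv 0 2 hx]
    simp [cv_apply]
  · show (W 0 2 (gq 0 2) x) 1 + (W 1 2 (gq 1 2) x) 1 = (Sm x) 1
    rw [a1, b1, Sm_1, gq_fderiv 1 2 hx]
    simp [cv_apply]
  · show (W 0 2 (gq 0 2) x) 2 + (W 1 2 (gq 1 2) x) 2 = (Sm x) 2
    rw [a2, b2, Sm_2, gq_fderiv 0 2 hx, gq_fderiv 1 2 hx]
    simp [cv_apply]
    ring

/-! ### The outer part -/

/-- the point `(1/2, 0, 1/2)` -/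
noncomputable def p0 : E3 := WithLp.toLp 2 ![1 / 2, 0, 1 / 2]

/-- the swap of the first and the third coordinates -/
noncomputable def sw : E3 ≃ₗᵢ[ℝ] E3 :=
  LinearIsometryEquiv.piLpCongrLeft 2 ℝ ℝ (Equiv.swap (0 : Fin 3) 2)

theorem sw_apply (x : E3) (i : Fin 3) : (sw x) i = x (Equiv.swap (0 : Fin 3) 2 i) := by
  unfold sw
  rw [LinearIsometryEquiv.piLpCongrLeft_apply]
  simp [Equiv.piCongrLeft'_apply, Equiv.symm_swap]

theorem sw_p0 : sw p0 = p0 := by
  ext i
  rw [sw_apply]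
  fin_cases i <;> simp [p0, Equiv.swap_apply_def]

theorem sw_cv0 : sw (cv 0) = cv 2 := by
  ext i
  rw [sw_apply, cv_apply, cv_apply]
  fin_cases i <;> simp [Equiv.swap_apply_def]

/-- the outer bump -/
noncomputable def fz : E3 → ℝ := bm p0 1 100

theorem fz_smooth : ContDiff ℝ (⊤ : ℕ∞) fz := bm_smooth _ _ _

theorem fz_ts : tsupport fz ⊆ closedBall p0 (1 / 10) :=
  bm_tsupport (by norm_num) (by norm_num) (by norm_num)

theorem fz_sw (x : E3) : fz (sw x) = fz x := by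
  unfold fz bm
  have h1 : ‖sw x - p0‖ = ‖x - p0‖ := by
    have h2 : sw x - p0 = sw (x - p0) := by rw [map_sub, sw_p0]
    rw [h2, sw.norm_map]
  rw [h1]

theorem fz_pd (x : E3) : fderiv ℝ fz x (cv 0) = fderiv ℝ fz (sw x) (cv 2) := by
  have h1 : fz = fun x => fz (sw x) := by
    funext x
    exact (fz_sw x).symm
  have h2 : HasFDerivAt (fun x => fz (sw x))
      ((fderiv ℝ fz (sw x)).comp (sw.toContinuousLinearEquiv : E3 →L[ℝ] E3)) x :=
    (fz_smooth.differentiable (by simp) (sw x)).hasFDerivAt.comp x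
      (sw.toContinuousLinearEquiv : E3 →L[ℝ] E3).hasFDerivAt
  have h3 : fderiv ℝ fz x = (fderiv ℝ fz (sw x)).comp (sw.toContinuousLinearEquiv : E3 →L[ℝ] E3) := by
    conv_lhs => rw [h1]
    exact h2.fderiv
  rw [h3]
  show fderiv ℝ fz (sw x) (sw (cv 0)) = _
  rw [sw_cv0]

theorem fz_int : ∫ x, (fderiv ℝ fz x (cv 0)) ^ 2 = ∫ x, (fderiv ℝ fz x (cv 2)) ^ 2 := by
  rw [← (sw.measurePreserving).integral_comp sw.toHomeomorph.measurableEmbedding
    (fun x => (fderiv ℝ fz x (cv 2)) ^ 2)]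
  congr 1
  funext x
  rw [fz_pd]

theorem norm_p0 : ‖p0‖ ^ 2 = 1 / 2 := by
  rw [← real_inner_self_eq_norm_sq, self_inner]
  simp [p0]
  norm_num

theorem p0_ball {x : E3} (hx : x ∈ closedBall p0 (1 / 10)) : 3 / 8 < ‖x‖ ∧ ‖x‖ < 1 := by
  rw [mem_closedBall, dist_eq_norm] at hx
  have h1 := norm_p0
  have h2 : 7 / 10 ≤ ‖p0‖ := by nlinarith [norm_nonneg p0]
  have h3 : ‖p0‖ ≤ 3 / 4 := by nlinarith [norm_nonneg p0]
  have h4 : ‖x‖ ≤ ‖x - p0‖ + ‖p0‖ := by
    have := norm_add_le (x - p0) p0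
    rwa [sub_add_cancel] at this
  have h5 : ‖p0‖ ≤ ‖x - p0‖ + ‖x‖ := by
    have := norm_add_le (p0 - x) x
    rwa [sub_add_cancel, norm_sub_rev] at this
  constructor <;> linarith

/-- the outer field -/
noncomputable def ze : E3 → E3 := W 0 2 fz

theorem ze_cs : CS (closedBall p0 (1 / 10)) ze := W_cs 0 2 fz_smooth (cpt_of fz_ts) fz_ts

theorem fz_cpt : HasCompactSupport fz := cpt_of fz_ts

theorem fz_p0 : fz p0 ≠ 0 := by
  unfold fz bm
  rw [sub_self, norm_zero, Real.smoothTransition.one_of_one_le (by norm_num)]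
  exact one_ne_zero

theorem ze_TT : TT ze < 0 := by
  have h1 : TT ze = -∫ x, (fderiv ℝ fz x (cv 0)) ^ 2 := by
    have h2 : TT ze = ∫ x, ((fderiv ℝ fz x (cv 2)) ^ 2 - 2 * (fderiv ℝ fz x (cv 0)) ^ 2) := by
      unfold TT
      congr 1
      funext x
      obtain ⟨a0, a1, a2⟩ := W02 fz x
      rw [Sm_inner]
      unfold ze
      rw [a0, a1, a2]
      ring
    rw [h2, integral_sub (pd_sq_int fz_smooth fz_cpt _) ((pd_sq_int fz_smooth fz_cpt _).const_mul 2),
      integral_const_mul, fz_int]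
    ring
  rw [h1, neg_lt_zero]
  exact pd_sq_pos fz_smooth fz_cpt fz_ts fz_p0 0

/-! ### The inner field -/

/-- the point `(3/16, 0, 0)` -/
noncomputable def p1 : E3 := WithLp.toLp 2 ![3 / 16, 0, 0]

theorem norm_p1 : ‖p1‖ = 3 / 16 := by
  have h : ‖p1‖ ^ 2 = (3 / 16) ^ 2 := by
    rw [← real_inner_self_eq_norm_sq, self_inner]
    simp [p1]
  nlinarith [norm_nonneg p1]

theorem p1_ball {x : E3} (hx : x ∈ closedBall p1 (1 / 32)) : x ∈ ball (0 : E3) (1 / 4) \ closedBall 0 (1 / 8) := by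
  rw [mem_closedBall, dist_eq_norm] at hx
  have h1 := norm_p1
  have h4 : ‖x‖ ≤ ‖x - p1‖ + ‖p1‖ := by
    have := norm_add_le (x - p1) p1
    rwa [sub_add_cancel] at this
  have h5 : ‖p1‖ ≤ ‖x - p1‖ + ‖x‖ := by
    have := norm_add_le (p1 - x) x
    rwa [sub_add_cancel, norm_sub_rev] at this
  refine ⟨?_, ?_⟩
  · rw [mem_ball, dist_eq_norm, sub_zero]
    linarith
  · rw [mem_closedBall, dist_eq_norm, sub_zero, not_le]
    linarith

/-- the inner bump -/
noncomputable def fh : E3 → ℝ := bm p1 1 1024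

theorem fh_smooth : ContDiff ℝ (⊤ : ℕ∞) fh := bm_smooth _ _ _

theorem fh_ts : tsupport fh ⊆ closedBall p1 (1 / 32) :=
  bm_tsupport (by norm_num) (by norm_num) (by norm_num)

theorem fh_cpt : HasCompactSupport fh := cpt_of fh_ts

theorem fh_p1 : fh p1 ≠ 0 := by
  unfold fh bm
  rw [sub_self, norm_zero, Real.smoothTransition.one_of_one_le (by norm_num)]
  exact one_ne_zero

/-- the inner field, not normalised -/
noncomputable def ht : E3 → E3 := W 0 1 fh

theorem ht_cs : CS (ball (0 : E3) (1 / 4) \ closedBall 0 (1 / 8)) ht :=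
  W_cs 0 1 fh_smooth fh_cpt (fh_ts.trans fun _ hx => p1_ball hx)

theorem ht_TT : TT ht = ipr ht ht := by
  unfold TT ipr
  congr 1
  funext x
  obtain ⟨a0, a1, a2⟩ := W01 fh x
  rw [Sm_inner, self_inner]
  unfold ht
  rw [a2]
  ring

theorem ht_pos : 0 < ipr ht ht := by
  have h1 : ipr ht ht = ∫ x, ((fderiv ℝ fh x (cv 1)) ^ 2 + (fderiv ℝ fh x (cv 0)) ^ 2) := by
    unfold ipr
    congr 1
    funext x
    obtain ⟨a0, a1, a2⟩ := W01 fh x
    rw [self_inner]
    unfold ht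
    rw [a0, a1, a2]
    ring
  rw [h1, integral_add (pd_sq_int fh_smooth fh_cpt _) (pd_sq_int fh_smooth fh_cpt _)]
  exact add_pos (pd_sq_pos fh_smooth fh_cpt fh_ts fh_p1 1) (pd_sq_pos fh_smooth fh_cpt fh_ts fh_p1 0)

/-! ### The packets -/

/-- the large factor -/
noncomputable def bs : ℝ := 1 + |TT u0| / (-TT ze)

theorem bs_spec : TT u0 + bs ^ 2 * TT ze < 0 := by
  have h0 : 0 < -TT ze := neg_pos.mpr ze_TT
  have h1 : 0 ≤ |TT u0| / (-TT ze) := div_nonneg (abs_nonneg _) h0.le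
  have h2 : 1 ≤ bs := by
    unfold bs
    linarith
  have h3 : bs * (-TT ze) = (-TT ze) + |TT u0| := by
    unfold bs
    rw [add_mul, one_mul, div_mul_cancel₀ _ h0.ne']
  have h4 : bs * (-TT ze) ≤ bs ^ 2 * (-TT ze) := by
    refine mul_le_mul_of_nonneg_right ?_ h0.le
    nlinarith
  have h5 := le_abs_self (TT u0)
  nlinarith

/-- the sum -/
noncomputable def vv (x : E3) : E3 := u0 x + bs • ze x

theorem vv_cs : CS (ball 0 1) vv := by
  refine cs_add (cs_mono u0_cs ?_) (cs_smul (cs_mono ze_cs ?_) bs)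
  · exact closedBall_subset_ball (by norm_num)
  · intro x hx
    rw [mem_ball, dist_eq_norm, sub_zero]
    exact (p0_ball hx).2

theorem ze_zero {x : E3} (hx : ‖x‖ ≤ 3 / 8) : ze x = 0 := by
  refine image_eq_zero_of_notMem_tsupport fun h => ?_
  exact absurd (p0_ball (ze_cs.supp h)).1 (not_lt.mpr hx)

theorem u0_zero {x : E3} (hx : 3 / 8 < ‖x‖) : u0 x = 0 := by
  refine image_eq_zero_of_notMem_tsupport fun h => ?_
  have h1 := u0_cs.supp h
  rw [mem_closedBall, dist_eq_norm, sub_zero] at h1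
  exact absurd hx (not_lt.mpr h1)

theorem vv_TT : TT vv = TT u0 + bs ^ 2 * TT ze := by
  rw [← TT_smul ze bs]
  unfold TT
  rw [← integral_add (int_Sm u0_cs) (int_Sm (cs_smul ze_cs bs))]
  congr 1
  funext x
  unfold vv
  rcases le_or_gt ‖x‖ (3 / 8) with h | h
  · rw [ze_zero h]
    simp
  · rw [u0_zero h]
    simp

theorem vv_neg : TT vv < 0 := by
  rw [vv_TT]
  exact bs_spec

theorem vv_pos : 0 < ipr vv vv := by
  have h1 := TT_lower vv_cs
  have h2 := vv_neg
  linarith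

theorem nrm {I : ℝ} (h : 0 < I) : (√I)⁻¹ ^ 2 * I = 1 := by
  rw [inv_pow, Real.sq_sqrt h.le, inv_mul_cancel₀ h.ne']

theorem t_PK : Pool.Agent.Y303.SK.S_PK := by
  have ha : 0 < (√(ipr vv vv))⁻¹ := inv_pos.mpr (Real.sqrt_pos.mpr vv_pos)
  refine ⟨fun x => (√(ipr vv vv))⁻¹ • vv x, fun x => (√(ipr ht ht))⁻¹ • ht x, (√(ipr vv vv))⁻¹,
    -((√(ipr vv vv))⁻¹ ^ 2 * TT vv), 1, 1 / 4, 1 / 8, ?_⟩
  exact
    { a0 := ha
      κ0 := by
        rw [neg_pos]
        exact mul_neg_of_pos_of_neg (pow_pos ha 2) vv_neg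
      h0 := one_pos
      q'0 := by norm_num
      qq := by norm_num
      q1 := by norm_num
      Ψcs := cs_smul vv_cs _
      Ψlin := fun x hx => by
        have h1 : ze x = 0 := by
          refine ze_zero ?_
          rw [mem_ball, dist_eq_norm, sub_zero] at hx
          linarith
        show (√(ipr vv vv))⁻¹ • vv x = _
        unfold vv
        rw [h1, smul_zero, add_zero, u0_eq hx]
      Ψn := by
        rw [ipr_smul]
        exact nrm vv_pos
      Ψk := by
        rw [neg_neg]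
        exact TT_smul vv _
      Hcs := cs_smul ht_cs _
      Hn := by
        rw [ipr_smul]
        exact nrm ht_pos
      Hh := by
        have h1 := TT_smul ht (√(ipr ht ht))⁻¹
        rw [ht_TT, nrm ht_pos] at h1
        exact h1 }

end Pool.Agent.Y448.SK
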